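import Pool.Agent.helper33.QX.SpecA
import Pool.Agent.helper65.QU.KLI
import Pool.Agent.helper62.QU.INV
import Pool.Agent.helper42.QU.CA2
import Pool.Agent.helper93.QU.DXI
import Pool.Agent.helper99.QU.IDN
import Pool.Agent.helper28.QU.TTT
import Pool.Agent.helper45.QU.LAK
import Pool.Agent.helper62.QU.CVS
import Pool.Agent.helper6.QU.CVB
import Pool.Agent.helper48.QU.FRB
import Pool.Agent.helper72.QU.DOM
import Pool.Agent.helper91.QU.DOB
import Pool.Agent.helper19.QU.BDD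

/-!
# Project QX (MP_07c750), row ALG: the integrals of `Δ(conv κ f) u²` are small for approximate eigenfunctions
-/

set_option autoImplicit false

open scoped MatrixGroups ContDiff Topology UpperHalfPlane
open UpperHalfPlane MeasureTheory Filter Set
open Pool.Agent.QU

namespace Pool.Agent.QX

theorem ALG_FB_mono {g : ℍ → ℝ} {C C' : ℝ} (h : FB g C) (hC : C ≤ C') : FB g C' :=
  ⟨h.1, fun z => ⟨(h.2 z).1.trans hC, (h.2 z).2.1.trans hC, (h.2 z).2.2.1.trans hC,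
    (h.2 z).2.2.2.1.trans hC, (h.2 z).2.2.2.2.1.trans hC, (h.2 z).2.2.2.2.2.1.trans hC,
    (h.2 z).2.2.2.2.2.2.trans hC⟩⟩

/-- Cauchy-Schwarz -/
theorem ALG_cs {f g : ℍ → ℝ} (hf : Continuous f) (hg : Continuous g) (sf : HasCompactSupport f)
    (sg : HasCompactSupport g) :
    |∫ z, f z * g z| ≤ Real.sqrt (∫ z, f z ^ 2) * Real.sqrt (∫ z, g z ^ 2) := by
  rw [← Real.sqrt_mul (integral_nonneg fun z => sq_nonneg _)]
  exact Real.abs_le_sqrt (KLI_CS hf hg sf sg)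

/-- a normalised bump -/
theorem ALG_bump : ∃ ψ : ℝ → ℝ, TK ψ ∧ (∫ v, ψ v) = 1 := by
  let φ : ContDiffBump (0 : ℝ) := ⟨1, 2, by norm_num, by norm_num⟩
  exact ⟨φ.normed volume, ⟨φ.contDiff_normed, φ.hasCompactSupport_normed⟩, φ.integral_normed⟩

theorem ALG_num {a η μ L y ND q : ℝ} (ha : 0 < a) (hη : 0 ≤ η) (hμ : 5 / 4 ≤ μ) (hL : 1 ≤ L)
    (hy : y = L / Real.sqrt μ * (η * Real.sqrt a)) (hya : y ≤ a) (hND : 0 ≤ ND)
    (hN2 : ND ^ 2 ≤ η * Real.sqrt a + μ * a) (hq : q ≤ 5 * L / (2 * μ)) :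
    0 ≤ y ∧ η ^ 2 ≤ μ * y ∧ ND ^ 2 ≤ 2 * μ * a ∧ ND * η ≤ 2 * μ * y ∧ q * (ND * η) ≤ 5 * y := by
  have hμ0 : 0 < μ := by linarith
  set S := Real.sqrt μ with hS
  set T := Real.sqrt a with hT
  have hS0 : 0 < S := Real.sqrt_pos.mpr hμ0
  have hT0 : 0 < T := Real.sqrt_pos.mpr ha
  have hS2 : S ^ 2 = μ := Real.sq_sqrt hμ0.le
  have hT2 : T ^ 2 = a := Real.sq_sqrt ha.le
  have hS1 : 1 ≤ S := by nlinarith
  have hηT : 0 ≤ η * T := by positivity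
  have hy0 : 0 ≤ y := by rw [hy]; positivity
  have hyS : y * S = L * (η * T) := by
    rw [hy]
    field_simp
  have h1 : η * T ≤ y * S := by
    rw [hyS]
    nlinarith
  have h2 : η ^ 2 ≤ μ * y := by
    have e1 : (η * T) ^ 2 ≤ (y * S) ^ 2 := pow_le_pow_left₀ hηT h1 2
    have e2 : η ^ 2 * a ≤ (μ * y) * a := by
      have : (η * T) ^ 2 = η ^ 2 * a := by rw [mul_pow, hT2]
      have h' : (y * S) ^ 2 = y ^ 2 * μ := by rw [mul_pow, hS2]
      rw [this, h'] at e1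
      have : y ^ 2 * μ ≤ (y * a) * μ := by
        refine mul_le_mul_of_nonneg_right ?_ hμ0.le
        nlinarith
      nlinarith
    exact le_of_mul_le_mul_right e2 ha
  have h3 : ND ^ 2 ≤ 2 * μ * a := by
    have : y * S ≤ μ * a := by
      calc y * S ≤ a * S := mul_le_mul_of_nonneg_right hya hS0.le
        _ ≤ a * μ := mul_le_mul_of_nonneg_left (by nlinarith) ha.le
        _ = μ * a := mul_comm _ _
    linarith
  have h4 : L * (ND * η) ≤ 2 * μ * y := by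
    have e : (L * (ND * η)) ^ 2 ≤ (2 * μ * y) ^ 2 := by
      have e1 : (L * (ND * η)) ^ 2 = ND ^ 2 * (L * η) ^ 2 := by ring
      have e2 : ND ^ 2 * (L * η) ^ 2 ≤ (2 * μ * a) * (L * η) ^ 2 :=
        mul_le_mul_of_nonneg_right h3 (sq_nonneg _)
      have e3 : (2 * μ * a) * (L * η) ^ 2 = 2 * μ * (L * (η * T)) ^ 2 := by
        rw [← hT2]
        ring
      rw [← hyS] at e3
      have e4 : 2 * μ * (y * S) ^ 2 = 2 * μ ^ 2 * y ^ 2 := by
        rw [mul_pow, hS2]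
        ring
      have e5 : 0 ≤ μ ^ 2 * y ^ 2 := by positivity
      rw [e1]
      nlinarith
    exact le_of_sq_le_sq e (by positivity)
  have hNη : 0 ≤ ND * η := by positivity
  refine ⟨hy0, h2, h3, ?_, ?_⟩
  · nlinarith
  · calc q * (ND * η) ≤ 5 * L / (2 * μ) * (ND * η) := mul_le_mul_of_nonneg_right hq hNη
      _ = 5 / (2 * μ) * (L * (ND * η)) := by ring
      _ ≤ 5 / (2 * μ) * (2 * μ * y) := mul_le_mul_of_nonneg_left h4 (by positivity)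
      _ = 5 * y := by field_simp

theorem ALG_two : (2 : WithTop ℕ∞) ≤ ∞ := by
  have h : ((2 : ℕ∞) : WithTop ℕ∞) ≤ ((⊤ : ℕ∞) : WithTop ℕ∞) := WithTop.coe_le_coe.mpr le_top
  exact h

theorem ALG_c {K M x c : ℝ} (hK : 0 ≤ K) (hMK : 9 * K ≤ M ^ 2) (hx : 0 ≤ x) (hc : c ≤ 9) :
    K * (c * x) ≤ M ^ 2 * x := by
  have h1 : K * c ≤ K * 9 := mul_le_mul_of_nonneg_left hc hK
  have h2 : K * c ≤ M ^ 2 := by linarith
  calc K * (c * x) = (K * c) * x := by ring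
    _ ≤ M ^ 2 * x := mul_le_mul_of_nonneg_right h2 hx

theorem ALG_q {μ : ℝ} (hμ : 5 / 4 ≤ μ) (hL : 1 ≤ Real.log (2 + μ)) :
    (1 + Real.log (μ - 1 / 4)) / (μ - 1 / 4) ≤ 5 * Real.log (2 + μ) / (2 * μ) := by
  have e1 : Real.log (μ - 1 / 4) ≤ Real.log (2 + μ) := Real.log_le_log (by linarith) (by linarith)
  rw [div_le_div_iff₀ (by linarith) (by linarith)]
  have e2 : (1 + Real.log (μ - 1 / 4)) * (2 * μ) ≤ (2 * Real.log (2 + μ)) * (2 * μ) :=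
    mul_le_mul_of_nonneg_right (by linarith) (by linarith)
  have e3 : 0 ≤ Real.log (2 + μ) * (μ - 5 / 4) := mul_nonneg (by linarith) (by linarith)
  have e4 : 5 * Real.log (2 + μ) * (μ - 1 / 4) - (2 * Real.log (2 + μ)) * (2 * μ) =
    Real.log (2 + μ) * (μ - 5 / 4) := by ring
  linarith

theorem ALG_fin1 {X C₀ M a P Z : ℝ} (h1 : X ≤ C₀ * a) (h2 : C₀ * a ≤ C₀ * P)
    (h3 : C₀ * P ≤ C₀ * M ^ 2 * P) (h4 : 0 ≤ C₀ * M ^ 2 * P) (h5 : 0 ≤ C₀ * M ^ 2 * Z) :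
    X ≤ 11 * C₀ * M ^ 2 * (P + Z) := by
  have : 11 * C₀ * M ^ 2 * (P + Z) = 11 * (C₀ * M ^ 2 * P) + 11 * (C₀ * M ^ 2 * Z) := by ring
  rw [this]
  linarith

theorem ALG_fin2 {C₀ M P Z X Y : ℝ} (h1 : X ≤ C₀ * M ^ 2 * (8 * P + 2 * Z)) (h2 : Y ≤ C₀ * M ^ 2 * (2 * P))
    (h4 : 0 ≤ C₀ * M ^ 2 * P) (h5 : 0 ≤ C₀ * M ^ 2 * Z) :
    X + Y ≤ 11 * C₀ * M ^ 2 * (P + Z) := by
  have e1 : 11 * C₀ * M ^ 2 * (P + Z) = 11 * (C₀ * M ^ 2 * P) + 11 * (C₀ * M ^ 2 * Z) := by ring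
  have e2 : C₀ * M ^ 2 * (8 * P + 2 * Z) = 8 * (C₀ * M ^ 2 * P) + 2 * (C₀ * M ^ 2 * Z) := by ring
  have e3 : C₀ * M ^ 2 * (2 * P) = 2 * (C₀ * M ^ 2 * P) := by ring
  rw [e1]
  linarith

theorem ALG_j3 {C₀ M μ S a P I J : ℝ} (hC₀ : 0 ≤ C₀) (hμ : 5 / 4 ≤ μ) (hS : 0 < S) (hS2 : S ^ 2 = μ)
    (ha : 0 ≤ a) (hP : 0 ≤ P) (j1 : |J + (μ - 1 / 4) * I| ≤ 12 * C₀ * M ^ 2 * μ * P)
    (j2 : |J - (μ - 1 / 4) * I| ≤ 2 * C₀ * M ^ 2 * S * a) :
    |I| ≤ C₀ * M ^ 2 * (8 * P + 2 * (a / S)) := by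
  have hμ0 : 0 < μ := by linarith
  have t1 : 2 * (μ - 1 / 4) * |I| ≤ 12 * C₀ * M ^ 2 * μ * P + 2 * C₀ * M ^ 2 * S * a := by
    have t2 : 2 * (μ - 1 / 4) * |I| = |(J + (μ - 1 / 4) * I) - (J - (μ - 1 / 4) * I)| := by
      have : (J + (μ - 1 / 4) * I) - (J - (μ - 1 / 4) * I) = (2 * (μ - 1 / 4)) * I := by ring
      rw [this, abs_mul, abs_of_nonneg (by linarith : (0 : ℝ) ≤ 2 * (μ - 1 / 4))]
    rw [t2]
    exact (abs_sub _ _).trans (add_le_add j1 j2)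
  have t3 : (8 / 5) * μ * |I| ≤ 2 * (μ - 1 / 4) * |I| :=
    mul_le_mul_of_nonneg_right (by linarith) (abs_nonneg _)
  have t5 : a / S * μ = S * a := by
    rw [← hS2]
    field_simp
  have t6 : C₀ * M ^ 2 * (8 * P + 2 * (a / S)) * ((8 / 5) * μ) =
      (64 / 5) * (C₀ * M ^ 2 * μ * P) + (16 / 5) * (C₀ * M ^ 2 * (a / S * μ)) := by ring
  have t7 : 0 ≤ C₀ * M ^ 2 * μ * P := by positivity
  have t8 : 0 ≤ C₀ * M ^ 2 * (S * a) := by positivity
  have t10 : 12 * C₀ * M ^ 2 * μ * P + 2 * C₀ * M ^ 2 * S * a =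
      12 * (C₀ * M ^ 2 * μ * P) + 2 * (C₀ * M ^ 2 * (S * a)) := by ring
  have t9 : |I| * ((8 / 5) * μ) ≤ C₀ * M ^ 2 * (8 * P + 2 * (a / S)) * ((8 / 5) * μ) := by
    rw [t6, t5]
    rw [t10] at t1
    linarith
  exact le_of_mul_le_mul_right t9 (by linarith)

theorem ALG_CD2 {u : ℍ → ℝ} (hu : CD ∞ u) : CD 2 u := by
  obtain ⟨-, hm, -⟩ := CA1 ℝ
  exact hm _ 2 _ ALG_two hu

/-- the estimate for given `v` -/
theorem ALG_main (hIDS : IDS_stmt) (g u v : ℍ → ℝ) (C₀ K μ : ℝ) (hg : FB g C₀) (hG : FB (lap g) C₀)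
    (hC₀ : 0 ≤ C₀) (hK : 0 ≤ K) (hμ : 5 / 4 ≤ μ) (hu : CD ∞ u) (hus : HasCompactSupport u)
    (hv : CD ∞ v) (hvs : HasCompactSupport v)
    (h1 : (∫ z : ℍ, (u z - v z) ^ 2) ≤ K * ((1 + Real.log (μ - 1 / 4)) / (μ - 1 / 4)) *
      (Real.sqrt (∫ z : ℍ, dD u z ^ 2) * Real.sqrt (∫ z : ℍ, (lap u z - μ * u z) ^ 2)))
    (h2 : (∫ z : ℍ, dX v z ^ 2) ≤ K * ((1 + Real.log (μ - 1 / 4)) / (μ - 1 / 4)) *
      (Real.sqrt (∫ z : ℍ, dD u z ^ 2) * Real.sqrt (∫ z : ℍ, (lap u z - μ * u z) ^ 2)))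
    (h3 : (∫ z : ℍ, dX (dD v) z ^ 2) ≤ K *
      (Real.sqrt (∫ z : ℍ, dD u z ^ 2) * Real.sqrt (∫ z : ℍ, (lap u z - μ * u z) ^ 2)))
    (h4 : (∫ z : ℍ, (dD (dD v) z + (μ - 1 / 4) * v z) ^ 2) ≤ K *
      (Real.sqrt (∫ z : ℍ, (lap u z - μ * u z) ^ 2) ^ 2 +
        Real.sqrt (∫ z : ℍ, dD u z ^ 2) * Real.sqrt (∫ z : ℍ, (lap u z - μ * u z) ^ 2)))
    (h5 : (∫ z : ℍ, dD v z ^ 2) ≤ K * (Real.sqrt (∫ z : ℍ, dD u z ^ 2) ^ 2 + ∫ z : ℍ, u z ^ 2))
    (h6 : (∫ z : ℍ, v z ^ 2) ≤ K * ∫ z : ℍ, u z ^ 2) :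
    |∫ z : ℍ, lap g z * u z ^ 2| ≤ 11 * C₀ * (3 * (K + 1)) ^ 2 *
      (Real.sqrt (Real.log (2 + μ) / Real.sqrt μ *
        (Real.sqrt (∫ z : ℍ, (lap u z - μ * u z) ^ 2) * Real.sqrt (∫ z : ℍ, u z ^ 2))) *
          Real.sqrt (∫ z : ℍ, u z ^ 2) + (∫ z : ℍ, u z ^ 2) / Real.sqrt μ) := by
  have hu2 := ALG_CD2 hu
  have hv2 := ALG_CD2 hv
  have cu := KLI_u_cont hu2
  have cv := KLI_u_cont hv2
  have cG : Continuous (lap g) := KLI_u_cont hG.1
  have bG : ∀ z, |lap g z| ≤ C₀ := fun z => (hG.2 z).1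
  have hμ0 : 0 < μ := by linarith
  set M : ℝ := 3 * (K + 1) with hM
  have hM1 : 1 ≤ M := by rw [hM]; linarith
  have hMK : 9 * K ≤ M ^ 2 := by
    have e : (3 * (K + 1)) ^ 2 = 9 * K ^ 2 + 18 * K + 9 := by ring
    rw [hM, e]
    have := sq_nonneg K
    linarith
  clear_value M
  set a : ℝ := ∫ z : ℍ, u z ^ 2 with ha
  set η : ℝ := Real.sqrt (∫ z : ℍ, (lap u z - μ * u z) ^ 2) with hη
  set ND : ℝ := Real.sqrt (∫ z : ℍ, dD u z ^ 2) with hND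
  set y : ℝ := Real.log (2 + μ) / Real.sqrt μ * (η * Real.sqrt a) with hy
  have ha0 : 0 ≤ a := integral_nonneg fun z => sq_nonneg _
  have hη0 : 0 ≤ η := Real.sqrt_nonneg _
  have hND0 : 0 ≤ ND := Real.sqrt_nonneg _
  have hS0 : 0 < Real.sqrt μ := Real.sqrt_pos.mpr hμ0
  have hL : 1 ≤ Real.log (2 + μ) := by
    rw [Real.le_log_iff_exp_le (by linarith)]
    have := Real.exp_one_lt_d9
    linarith
  have hy0 : 0 ≤ y := by rw [hy]; positivity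
  -- integrable functions
  have iu : Integrable fun z => u z ^ 2 := KLI_int (cu.pow 2) (KLI_sq_supp hus)
  have iGu : Integrable fun z => lap g z * u z ^ 2 :=
    KLI_int (cG.mul (cu.pow 2)) (KLI_sq_supp hus).mul_left
  -- trivial bound
  have htriv : |∫ z : ℍ, lap g z * u z ^ 2| ≤ C₀ * a := by
    rw [ha, ← integral_const_mul]
    refine (abs_integral_le_integral_abs).trans ?_
    refine integral_mono iGu.abs (iu.const_mul C₀) fun z => ?_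
    show |lap g z * u z ^ 2| ≤ C₀ * u z ^ 2
    rw [abs_mul, abs_of_nonneg (sq_nonneg (u z))]
    exact mul_le_mul_of_nonneg_right (bG z) (sq_nonneg _)
  have hM2 : 1 ≤ M ^ 2 := one_le_pow₀ hM1
  have hCM : C₀ ≤ C₀ * M ^ 2 := le_mul_of_one_le_right hC₀ hM2
  have hfin : 0 ≤ a / Real.sqrt μ := by positivity
  have hyy : 0 ≤ Real.sqrt y * Real.sqrt a := by positivity
  rcases lt_or_ge a y with hcase | hcase
  · -- large `y`
    have e1 : a ≤ Real.sqrt y * Real.sqrt a := by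
      calc a = Real.sqrt a * Real.sqrt a := (Real.mul_self_sqrt ha0).symm
        _ ≤ Real.sqrt y * Real.sqrt a :=
          mul_le_mul_of_nonneg_right (Real.sqrt_le_sqrt hcase.le) (Real.sqrt_nonneg _)
    have e2 : C₀ * a ≤ C₀ * (Real.sqrt y * Real.sqrt a) := mul_le_mul_of_nonneg_left e1 hC₀
    have e3 : C₀ * (Real.sqrt y * Real.sqrt a) ≤ C₀ * M ^ 2 * (Real.sqrt y * Real.sqrt a) :=
      mul_le_mul_of_nonneg_right hCM hyy
    have e4 : 0 ≤ C₀ * M ^ 2 * (Real.sqrt y * Real.sqrt a) := by positivity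
    have e5 : 0 ≤ C₀ * M ^ 2 * (a / Real.sqrt μ) := by positivity
    exact ALG_fin1 htriv e2 e3 e4 e5
  rcases ha0.eq_or_lt with ha1 | ha1
  · -- `a = 0`
    rw [← ha1] at htriv
    rw [mul_zero] at htriv
    refine htriv.trans ?_
    positivity
  -- the main case
  have hN2 : ND ^ 2 ≤ η * Real.sqrt a + μ * a := by
    have e0 := (IDN CA1 (CA2 CA1) (DXI INV CA1) u μ hu2 hus).2
    have e1 : ND ^ 2 = ∫ z : ℍ, dD u z ^ 2 := Real.sq_sqrt (integral_nonneg fun z => sq_nonneg _)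
    have e2 : 0 ≤ ∫ z : ℍ, dX u z ^ 2 := integral_nonneg fun z => sq_nonneg _
    have cf : Continuous fun z => lap u z - μ * u z := KLI_f_cont μ hu2
    have sf : HasCompactSupport fun z => lap u z - μ * u z :=
      (KLI_lap_supp hus).sub hus.mul_left
    have e3 := ALG_cs cf cu sf hus
    have e4 : ∫ z : ℍ, u z * lap u z = (∫ z : ℍ, (lap u z - μ * u z) * u z) + μ * a := by
      rw [ha, ← integral_const_mul, ← integral_add]
      · refine integral_congr_ae (Filter.Eventually.of_forall fun z => ?_)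
        show u z * lap u z = (lap u z - μ * u z) * u z + μ * u z ^ 2
        ring
      · exact KLI_int (cf.mul cu) hus.mul_left
      · exact iu.const_mul μ
    have e5 := le_abs_self (∫ z : ℍ, (lap u z - μ * u z) * u z)
    rw [e1]
    rw [e4] at e0
    linarith
  have hq := ALG_q hμ hL
  obtain ⟨-, n1, n2, n3, n4⟩ := ALG_num ha1 hη0 hμ hL hy hcase hND0 hN2 hq
  set S : ℝ := Real.sqrt μ with hS
  set T : ℝ := Real.sqrt a with hT
  set Q : ℝ := Real.sqrt y with hQ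
  clear_value y
  have hT0 : 0 ≤ T := Real.sqrt_nonneg _
  have hQ0 : 0 ≤ Q := Real.sqrt_nonneg _
  have hS2 : S ^ 2 = μ := Real.sq_sqrt hμ0.le
  have hT2 : T ^ 2 = a := Real.sq_sqrt ha0
  have hQ2 : Q ^ 2 = y := Real.sq_sqrt hy0
  have hM0 : 0 ≤ M := by linarith
  have hQT : Q ≤ T := Real.sqrt_le_sqrt hcase
  clear_value S T Q
  -- bounds for the norms of `v`
  have b1 : Real.sqrt (∫ z : ℍ, (u z - v z) ^ 2) ≤ M * Q := by
    refine Real.sqrt_le_iff.mpr ⟨by positivity, h1.trans ?_⟩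
    calc K * ((1 + Real.log (μ - 1 / 4)) / (μ - 1 / 4)) * (ND * η)
        = K * ((1 + Real.log (μ - 1 / 4)) / (μ - 1 / 4) * (ND * η)) := by ring
      _ ≤ K * (5 * y) := mul_le_mul_of_nonneg_left n4 hK
      _ ≤ (M * Q) ^ 2 := by
        rw [mul_pow, hQ2]
        exact ALG_c hK hMK hy0 (by norm_num)
  have b2 : Real.sqrt (∫ z : ℍ, dX v z ^ 2) ≤ M * Q := by
    refine Real.sqrt_le_iff.mpr ⟨by positivity, h2.trans ?_⟩
    calc K * ((1 + Real.log (μ - 1 / 4)) / (μ - 1 / 4)) * (ND * η)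
        = K * ((1 + Real.log (μ - 1 / 4)) / (μ - 1 / 4) * (ND * η)) := by ring
      _ ≤ K * (5 * y) := mul_le_mul_of_nonneg_left n4 hK
      _ ≤ (M * Q) ^ 2 := by
        rw [mul_pow, hQ2]
        exact ALG_c hK hMK hy0 (by norm_num)
  have hμy : 0 ≤ μ * y := by positivity
  have hμa : 0 ≤ μ * a := by positivity
  have haμ : a ≤ μ * a := by
    have := mul_le_mul_of_nonneg_right (show (1 : ℝ) ≤ μ by linarith) ha0
    rwa [one_mul] at this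
  have b3 : Real.sqrt (∫ z : ℍ, dX (dD v) z ^ 2) ≤ M * (S * Q) := by
    refine Real.sqrt_le_iff.mpr ⟨by positivity, h3.trans ?_⟩
    calc K * (ND * η) ≤ K * (2 * (μ * y)) := mul_le_mul_of_nonneg_left (by linarith) hK
      _ ≤ (M * (S * Q)) ^ 2 := by
        rw [mul_pow, mul_pow S Q, hQ2, hS2]
        exact ALG_c hK hMK hμy (by norm_num)
  have b4 : Real.sqrt (∫ z : ℍ, (dD (dD v) z + (μ - 1 / 4) * v z) ^ 2) ≤ M * (S * Q) := by
    refine Real.sqrt_le_iff.mpr ⟨by positivity, h4.trans ?_⟩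
    calc K * (η ^ 2 + ND * η) ≤ K * (3 * (μ * y)) :=
          mul_le_mul_of_nonneg_left (by linarith) hK
      _ ≤ (M * (S * Q)) ^ 2 := by
        rw [mul_pow, mul_pow S Q, hQ2, hS2]
        exact ALG_c hK hMK hμy (by norm_num)
  have b5 : Real.sqrt (∫ z : ℍ, dD v z ^ 2) ≤ M * (S * T) := by
    refine Real.sqrt_le_iff.mpr ⟨by positivity, h5.trans ?_⟩
    calc K * (ND ^ 2 + a) ≤ K * (3 * (μ * a)) :=
          mul_le_mul_of_nonneg_left (by linarith) hK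
      _ ≤ (M * (S * T)) ^ 2 := by
        rw [mul_pow, mul_pow S T, hT2, hS2]
        exact ALG_c hK hMK hμa (by norm_num)
  have b6 : Real.sqrt (∫ z : ℍ, v z ^ 2) ≤ M * T := by
    refine Real.sqrt_le_iff.mpr ⟨by positivity, h6.trans ?_⟩
    rw [mul_pow, hT2]
    have := ALG_c (c := 1) hK hMK ha0 (by norm_num)
    rwa [one_mul] at this
  have r1 : 0 ≤ Real.sqrt (∫ z : ℍ, dD v z ^ 2) := Real.sqrt_nonneg _
  have r2 : 0 ≤ Real.sqrt (∫ z : ℍ, v z ^ 2) := Real.sqrt_nonneg _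
  have r3 : 0 ≤ Real.sqrt (∫ z : ℍ, dX v z ^ 2) := Real.sqrt_nonneg _
  have r4 : 0 ≤ Real.sqrt (∫ z : ℍ, dX (dD v) z ^ 2) := Real.sqrt_nonneg _
  have r5 : 0 ≤ Real.sqrt (∫ z : ℍ, (dD (dD v) z + (μ - 1 / 4) * v z) ^ 2) := Real.sqrt_nonneg _
  -- IDS
  have i1 := (hIDS g v C₀ (μ - 1 / 4) hg hv hvs (by linarith)).1
  have i2 := (hIDS (lap g) v C₀ (μ - 1 / 4) hG hv hvs (by linarith)).2
  have cDv := KLI_dD_cont hv2
  have sDv := KLI_dD_supp hvs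
  have iGD : Integrable fun z => lap g z * dD v z ^ 2 :=
    KLI_int (cG.mul (cDv.pow 2)) (KLI_sq_supp sDv).mul_left
  have iGv : Integrable fun z => lap g z * v z ^ 2 :=
    KLI_int (cG.mul (cv.pow 2)) (KLI_sq_supp hvs).mul_left
  have e1 : ∫ z : ℍ, lap g z * (dD v z ^ 2 + (μ - 1 / 4) * v z ^ 2) =
      (∫ z : ℍ, lap g z * dD v z ^ 2) + (μ - 1 / 4) * ∫ z : ℍ, lap g z * v z ^ 2 := by
    rw [← integral_const_mul, ← integral_add iGD (iGv.const_mul _)]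
    refine integral_congr_ae (Filter.Eventually.of_forall fun z => ?_)
    show lap g z * (dD v z ^ 2 + (μ - 1 / 4) * v z ^ 2) =
      lap g z * dD v z ^ 2 + (μ - 1 / 4) * (lap g z * v z ^ 2)
    ring
  rw [e1] at i1
  have j1 : |(∫ z : ℍ, lap g z * dD v z ^ 2) + (μ - 1 / 4) * ∫ z : ℍ, lap g z * v z ^ 2| ≤
      12 * C₀ * M ^ 2 * μ * (Q * T) := by
    refine i1.trans ?_
    have m1 : Real.sqrt (∫ z : ℍ, dD v z ^ 2) * Real.sqrt (∫ z : ℍ, dX (dD v) z ^ 2) ≤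
        M ^ 2 * μ * (Q * T) := by
      calc _ ≤ (M * (S * T)) * (M * (S * Q)) := mul_le_mul b5 b3 r4 (by positivity)
        _ = M ^ 2 * S ^ 2 * (Q * T) := by ring
        _ = M ^ 2 * μ * (Q * T) := by rw [hS2]
    have m2 : (μ - 1 / 4) * (Real.sqrt (∫ z : ℍ, v z ^ 2) * Real.sqrt (∫ z : ℍ, dX v z ^ 2)) ≤
        M ^ 2 * μ * (Q * T) := by
      calc _ ≤ μ * ((M * T) * (M * Q)) :=
            mul_le_mul (by linarith) (mul_le_mul b6 b2 r3 (by positivity)) (by positivity) hμ0.le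
        _ = M ^ 2 * μ * (Q * T) := by ring
    have m3 : Real.sqrt (∫ z : ℍ, dD v z ^ 2) *
        Real.sqrt (∫ z : ℍ, (dD (dD v) z + (μ - 1 / 4) * v z) ^ 2) ≤ M ^ 2 * μ * (Q * T) := by
      calc _ ≤ (M * (S * T)) * (M * (S * Q)) := mul_le_mul b5 b4 r5 (by positivity)
        _ = M ^ 2 * S ^ 2 * (Q * T) := by ring
        _ = M ^ 2 * μ * (Q * T) := by rw [hS2]
    calc _ ≤ 4 * C₀ * (M ^ 2 * μ * (Q * T) + M ^ 2 * μ * (Q * T) + M ^ 2 * μ * (Q * T)) :=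
          mul_le_mul_of_nonneg_left (add_le_add (add_le_add m1 m2) m3) (by positivity)
      _ = 12 * C₀ * M ^ 2 * μ * (Q * T) := by ring
  have j2 : |(∫ z : ℍ, lap g z * dD v z ^ 2) - (μ - 1 / 4) * ∫ z : ℍ, lap g z * v z ^ 2| ≤
      2 * C₀ * M ^ 2 * S * a := by
    refine i2.trans ?_
    have m1 : Real.sqrt (∫ z : ℍ, v z ^ 2) *
        Real.sqrt (∫ z : ℍ, (dD (dD v) z + (μ - 1 / 4) * v z) ^ 2) ≤ M ^ 2 * S * a := by
      calc _ ≤ (M * T) * (M * (S * Q)) := mul_le_mul b6 b4 r5 (by positivity)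
        _ ≤ (M * T) * (M * (S * T)) := by
          refine mul_le_mul_of_nonneg_left ?_ (by positivity)
          refine mul_le_mul_of_nonneg_left ?_ hM0
          exact mul_le_mul_of_nonneg_left hQT hS0.le
        _ = M ^ 2 * S * T ^ 2 := by ring
        _ = M ^ 2 * S * a := by rw [hT2]
    have m2 : Real.sqrt (∫ z : ℍ, v z ^ 2) * Real.sqrt (∫ z : ℍ, dD v z ^ 2) ≤ M ^ 2 * S * a := by
      calc _ ≤ (M * T) * (M * (S * T)) := mul_le_mul b6 b5 r1 (by positivity)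
        _ = M ^ 2 * S * T ^ 2 := by ring
        _ = M ^ 2 * S * a := by rw [hT2]
    calc _ ≤ C₀ * (M ^ 2 * S * a + M ^ 2 * S * a) :=
          mul_le_mul_of_nonneg_left (add_le_add m1 m2) hC₀
      _ = 2 * C₀ * M ^ 2 * S * a := by ring
  -- the integral of `Δg v²`
  have j3 : |∫ z : ℍ, lap g z * v z ^ 2| ≤ C₀ * M ^ 2 * (8 * (Q * T) + 2 * (a / S)) := by
    exact ALG_j3 hC₀ hμ hS0 hS2 ha0 (by positivity) j1 j2
  -- the difference
  have j4 : |∫ z : ℍ, (lap g z * (u z - v z)) * (u z + v z)| ≤ C₀ * M ^ 2 * (2 * (Q * T)) := by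
    have c1 : Continuous fun z => lap g z * (u z - v z) := cG.mul (cu.sub cv)
    have s1 : HasCompactSupport fun z => lap g z * (u z - v z) := (hus.sub hvs).mul_left
    have c2 : Continuous fun z => u z + v z := cu.add cv
    have s2 : HasCompactSupport fun z => u z + v z := hus.add hvs
    refine (ALG_cs c1 c2 s1 s2).trans ?_
    have c3 : Continuous fun z => u z - v z := cu.sub cv
    have s3 : HasCompactSupport fun z => u z - v z := hus.sub hvs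
    have d1 : Real.sqrt (∫ z, (lap g z * (u z - v z)) ^ 2) ≤ C₀ * (M * Q) := by
      have : Real.sqrt (∫ z, (lap g z * (u z - v z)) ^ 2) ≤
          Real.sqrt (C₀ ^ 2 * ∫ z, (u z - v z) ^ 2) := by
        refine Real.sqrt_le_sqrt ?_
        rw [← integral_const_mul]
        refine integral_mono (KLI_int (c1.pow 2) (KLI_sq_supp s1))
          ((KLI_int (c3.pow 2) (KLI_sq_supp s3)).const_mul _) fun z => ?_
        show (lap g z * (u z - v z)) ^ 2 ≤ C₀ ^ 2 * (u z - v z) ^ 2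
        rw [mul_pow]
        refine mul_le_mul_of_nonneg_right ?_ (sq_nonneg _)
        rw [← sq_abs (lap g z)]
        exact pow_le_pow_left₀ (abs_nonneg _) (bG z) 2
      refine this.trans ?_
      rw [Real.sqrt_mul (sq_nonneg _), Real.sqrt_sq hC₀]
      exact mul_le_mul_of_nonneg_left b1 hC₀
    have iv : Integrable fun z => v z ^ 2 := KLI_int (cv.pow 2) (KLI_sq_supp hvs)
    have d2 : Real.sqrt (∫ z, (u z + v z) ^ 2) ≤ 2 * (M * T) := by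
      refine Real.sqrt_le_iff.mpr ⟨by positivity, ?_⟩
      have d3 : (∫ z, (u z + v z) ^ 2) ≤ ∫ z, (2 * u z ^ 2 + 2 * v z ^ 2) := by
        refine integral_mono (KLI_int (c2.pow 2) (KLI_sq_supp s2))
          ((iu.const_mul 2).add (iv.const_mul 2)) fun z => ?_
        show (u z + v z) ^ 2 ≤ 2 * u z ^ 2 + 2 * v z ^ 2
        have e : 2 * u z ^ 2 + 2 * v z ^ 2 - (u z + v z) ^ 2 = (u z - v z) ^ 2 := by ring
        have := sq_nonneg (u z - v z)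
        linarith
      have d4 : (∫ z, (2 * u z ^ 2 + 2 * v z ^ 2)) = 2 * a + 2 * ∫ z, v z ^ 2 := by
        rw [integral_add (iu.const_mul 2) (iv.const_mul 2), integral_const_mul, integral_const_mul]
      have d5 : (∫ z, v z ^ 2) ≤ (M * T) ^ 2 := by
        have := Real.sqrt_le_iff.mp b6
        exact this.2
      rw [d4] at d3
      have d6 : a ≤ (M * T) ^ 2 := by
        rw [mul_pow, hT2]
        have := mul_le_mul_of_nonneg_right hM2 ha0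
        rwa [one_mul] at this
      have d7 : (2 * (M * T)) ^ 2 = 4 * (M * T) ^ 2 := by ring
      rw [d7]
      linarith
    calc _ ≤ (C₀ * (M * Q)) * (2 * (M * T)) := mul_le_mul d1 d2 (Real.sqrt_nonneg _) (by positivity)
      _ = C₀ * M ^ 2 * (2 * (Q * T)) := by ring
  have j5 : ∫ z : ℍ, lap g z * u z ^ 2 = (∫ z : ℍ, lap g z * v z ^ 2) +
      ∫ z : ℍ, (lap g z * (u z - v z)) * (u z + v z) := by
    rw [← integral_add iGv]
    · refine integral_congr_ae (Filter.Eventually.of_forall fun z => ?_)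
      show lap g z * u z ^ 2 = lap g z * v z ^ 2 + (lap g z * (u z - v z)) * (u z + v z)
      ring
    · exact KLI_int ((cG.mul (cu.sub cv)).mul (cu.add cv)) (hus.add hvs).mul_left
  rw [j5]
  refine (abs_add_le _ _).trans ?_
  have z1 : 0 ≤ C₀ * M ^ 2 * (Q * T) := by positivity
  have z2 : 0 ≤ C₀ * M ^ 2 * (a / S) := by positivity
  exact ALG_fin2 j3 j4 z1 z2

/-- **ALG**. -/
theorem ALG (hUZE : UZE_stmt) (hIDS : IDS_stmt) : ALG_stmt := by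
  intro Γ κ f hΓ hκ hf
  have hINV : INV_stmt := INV
  have hCA1 : CA1_stmt := CA1
  have hCA2 : CA2_stmt := CA2 hCA1
  have hTTT : TTT_stmt := TTT
  have hLAK : LAK_stmt := LAK hTTT hCA1
  have hCVS : CVS_stmt := CVS hTTT hCA1 hLAK
  have hCVB : CVB_stmt := CVB hTTT hINV hCA1 hLAK
  have hFRB : FRB_stmt := FRB hTTT hCA1 hCA2 hLAK hCVS hCVB
  obtain ⟨F, hF⟩ := DOM Γ hΓ
  obtain ⟨⟨m, hm⟩, -⟩ := (BDD hINV (DOB hINV)) Γ F f hΓ hF hf
  obtain ⟨C1, hC1, hFR1⟩ := hFRB κ hκ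
  obtain ⟨C2, hC2, hFR2⟩ := hFRB (LL κ) (hLAK.2.2.2.1 κ hκ)
  have hm0 : 0 ≤ m := (abs_nonneg _).trans (hm UpperHalfPlane.I)
  have hG : lap (conv κ f) = conv (LL κ) f := by
    funext z
    exact (hCVS ℝ κ f hκ hf.1).2.2.2 z
  have hC₀ : 0 ≤ max (C1 * m) (C2 * m) := le_max_of_le_left (by positivity)
  have G1 : FB (conv κ f) (max (C1 * m) (C2 * m)) :=
    ALG_FB_mono (hFR1 f m hf.1 hm) (le_max_left _ _)
  have G2 : FB (lap (conv κ f)) (max (C1 * m) (C2 * m)) := by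
    rw [hG]
    exact ALG_FB_mono (hFR2 f m hf.1 hm) (le_max_right _ _)
  obtain ⟨ψ, hψ, hψ1⟩ := ALG_bump
  obtain ⟨K, hK, hU⟩ := hUZE ψ hψ hψ1
  refine ⟨11 * max (C1 * m) (C2 * m) * (3 * (K + 1)) ^ 2, by positivity, ?_⟩
  intro u μ hμ hu hus
  obtain ⟨k1, k2, k3, k4, k5, k6, k7, k8⟩ := hU u μ hμ hu hus
  exact ALG_main hIDS (conv κ f) u (hav ψ u) _ K μ G1 G2 hC₀ hK hμ hu hus k1 k2 k3 k4 k5 k6 k7 k8

end Pool.Agent.QX
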