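import Pool.Agent.helper4.QX.SpecF

set_option autoImplicit false

/-!
# Project QX (MP_07c750), row EFB: the theorem T2* (power savings for flat bundles)
-/

open scoped MatrixGroups ContDiff Topology UpperHalfPlane
open UpperHalfPlane MeasureTheory ProbabilityTheory Filter Set Polynomial
open Pool.Agent.QU Pool.Agent.RP

namespace Pool.Agent.QX

private theorem EFB_prob (ι : Type) [Fintype ι] : IsProbabilityMeasure (gau ι) := by
  unfold gau
  infer_instance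

private theorem EFB_int {Γ : Subgroup SL(2, ℝ)} {F : Set ℍ} (hΓ : SurfaceGroup Γ) (hF : NiceDom Γ F)
    {g : ℍ → ℝ} (hg : Inv Γ g) : IntegrableOn g F volume := by
  obtain ⟨m, hm⟩ := (A_BDD Γ F g hΓ hF hg).1
  obtain ⟨-, -, -, hfin, -, -⟩ := A_DOB Γ F hΓ hF
  haveI : IsFiniteMeasure (volume.restrict F : Measure ℍ) := ⟨by
    rw [Measure.restrict_apply_univ]; exact hfin⟩
  refine Integrable.of_bound hg.1.aestronglyMeasurable m ?_
  exact Filter.Eventually.of_forall fun z => by rw [Real.norm_eq_abs]; exact hm z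

private theorem EFB_inv_sq {Γ : Subgroup SL(2, ℝ)} {V : Type} [NormedAddCommGroup V]
    [InnerProductSpace ℂ V] {ρ : Γ →* (V ≃ₗᵢ[ℂ] V)} {μ : ℝ} {φ : ℍ → V}
    (hφ : IsEigensection ρ μ φ) : Inv Γ (fun z => ‖φ z‖ ^ 2) := by
  obtain ⟨h1, h2, -⟩ := hφ
  have hc : Continuous φ := (CA1_cont φ).1 (h1.of_le (by exact_mod_cast zero_le))
  refine ⟨(hc.norm).pow 2, fun γ z => ?_⟩
  simp only [h2 γ z, LinearIsometryEquiv.norm_map]

private theorem EFB_inv_mul {Γ : Subgroup SL(2, ℝ)} {f g : ℍ → ℝ} (hf : Inv Γ f) (hg : Inv Γ g) :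
    Inv Γ (fun z => f z * g z) :=
  ⟨hf.1.mul hg.1, fun γ z => by simp only [hf.2 γ z, hg.2 γ z]⟩

/-- what is needed of the representation -/
private def EFB_P (Γ : Subgroup SL(2, ℝ)) (F : Set ℍ) (A u : ℝ) (N : ℕ)
    (R : Γ →* (EuclideanSpace ℂ (Fin N) ≃ₗᵢ[ℂ] EuclideanSpace ℂ (Fin N))) : Prop :=
  ∃ (k : ℕ) (χ : Fin k → ℍ → ℝ), (k : ℝ) ≤ A * u ^ 4 ∧
    (∀ h : ℍ → ℝ, Lip1 Γ F h → ∃ c : Fin k → ℝ, (∀ i, |c i| ≤ A * u ^ 12) ∧
      ∀ z, |h z - ∑ i, c i * χ i z| ≤ A / u ^ 2) ∧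
    ∀ i, Lip1 Γ F (χ i) ∧ ∀ (φ : ℍ → EuclideanSpace ℂ (Fin N)) (μ : ℝ), IsEigensection R μ φ → 0 ≤ μ →
      μ ≤ Real.exp (u ^ 32) → |∫ z in F, χ i z * ‖φ z‖ ^ 2| ≤ (u ^ 32)⁻¹ * ∫ z in F, ‖φ z‖ ^ 2

private theorem EFB_num {A u : ℝ} (hA : 1 ≤ A) (hu : 2 * A ^ 2 ≤ u) :
    A * u ^ 4 * (A * u ^ 12 * (u ^ 32)⁻¹) + A / u ^ 2 ≤ u⁻¹ := by
  have hu2 : 2 ≤ u := by nlinarith
  have hu0 : 0 < u := by linarith
  have h1 : A * u ^ 4 * (A * u ^ 12 * (u ^ 32)⁻¹) = A ^ 2 / u ^ 16 := by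
    field_simp
  have h2 : A ^ 2 / u ^ 16 ≤ (1 / 2) * u⁻¹ := by
    rw [div_le_iff₀ (by positivity)]
    have h3 : (1 / 2) * u⁻¹ * u ^ 16 = u / 2 * u ^ 14 := by field_simp
    rw [h3]
    have h4 : 1 ≤ u ^ 14 := one_le_pow₀ (by linarith)
    nlinarith
  have h5 : A / u ^ 2 ≤ (1 / 2) * u⁻¹ := by
    rw [div_le_iff₀ (by positivity)]
    have h3 : (1 / 2) * u⁻¹ * u ^ 2 = u / 2 := by field_simp
    rw [h3]
    nlinarith
  rw [h1]
  linarith

private theorem EFB_core {Γ : Subgroup SL(2, ℝ)} (hΓ : SurfaceGroup Γ) {F : Set ℍ}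
    (hF : NiceDom Γ F) {A u : ℝ} (hA : 1 ≤ A) (hu : 2 * A ^ 2 ≤ u) {N : ℕ}
    {R : Γ →* (EuclideanSpace ℂ (Fin N) ≃ₗᵢ[ℂ] EuclideanSpace ℂ (Fin N))} (hP : EFB_P Γ F A u N R)
    (φ : ℍ → EuclideanSpace ℂ (Fin N)) (μ : ℝ) (hφ : IsEigensection R μ φ) (hμ0 : 0 ≤ μ)
    (hμ : μ ≤ Real.exp (u ^ 32)) (h : ℍ → ℝ) (hh : Lip1 Γ F h) :
    |∫ z in F, h z * ‖φ z‖ ^ 2| ≤ u⁻¹ * ∫ z in F, ‖φ z‖ ^ 2 := by
  obtain ⟨k, χ, hk, hap, hχ⟩ := hP
  obtain ⟨c, hc, hz⟩ := hap h hh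
  have isq := EFB_inv_sq hφ
  have j1 := EFB_int hΓ hF isq
  have jh := EFB_int hΓ hF (EFB_inv_mul hh.Inv isq)
  have jχ : ∀ i, IntegrableOn (fun z => χ i z * ‖φ z‖ ^ 2) F volume := fun i =>
    EFB_int hΓ hF (EFB_inv_mul (hχ i).1.Inv isq)
  have jc : ∀ i, IntegrableOn (fun z => c i * (χ i z * ‖φ z‖ ^ 2)) F volume := fun i => (jχ i).const_mul _
  have js : IntegrableOn (fun z => ∑ i, c i * (χ i z * ‖φ z‖ ^ 2)) F volume :=
    integrable_finset_sum _ fun i _ => jc i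
  set I : ℝ := ∫ z in F, ‖φ z‖ ^ 2 with hI
  have hI0 : 0 ≤ I := integral_nonneg fun z => by positivity
  have hu2 : 2 ≤ u := by nlinarith
  have hu0 : 0 < u := by linarith
  have e1 : (∫ z in F, h z * ‖φ z‖ ^ 2) = (∑ i, c i * ∫ z in F, χ i z * ‖φ z‖ ^ 2) +
      ∫ z in F, (h z * ‖φ z‖ ^ 2 - ∑ i, c i * (χ i z * ‖φ z‖ ^ 2)) := by
    rw [integral_sub jh js, integral_finset_sum _ fun i _ => jc i]
    have : ∀ i, (∫ z in F, c i * (χ i z * ‖φ z‖ ^ 2)) = c i * ∫ z in F, χ i z * ‖φ z‖ ^ 2 := fun i =>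
      integral_const_mul _ _
    rw [Finset.sum_congr rfl fun i _ => this i]
    ring
  have b2 : |∫ z in F, (h z * ‖φ z‖ ^ 2 - ∑ i, c i * (χ i z * ‖φ z‖ ^ 2))| ≤ A / u ^ 2 * I := by
    rw [← Real.norm_eq_abs, hI, ← integral_const_mul]
    refine norm_integral_le_of_norm_le (j1.const_mul _) (Filter.Eventually.of_forall fun z => ?_)
    have h1 : h z * ‖φ z‖ ^ 2 - ∑ i, c i * (χ i z * ‖φ z‖ ^ 2) =
        (h z - ∑ i, c i * χ i z) * ‖φ z‖ ^ 2 := by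
      rw [sub_mul, Finset.sum_mul]
      congr 1
      refine Finset.sum_congr rfl fun i _ => ?_
      ring
    rw [h1, Real.norm_eq_abs, abs_mul, abs_of_nonneg (show (0 : ℝ) ≤ ‖φ z‖ ^ 2 by positivity)]
    exact mul_le_mul_of_nonneg_right (hz z) (by positivity)
  have b1 : |∑ i, c i * ∫ z in F, χ i z * ‖φ z‖ ^ 2| ≤ A * u ^ 4 * (A * u ^ 12 * (u ^ 32)⁻¹) * I := by
    refine (Finset.abs_sum_le_sum_abs _ _).trans ?_
    have h1 : ∀ i ∈ Finset.univ, |c i * ∫ z in F, χ i z * ‖φ z‖ ^ 2| ≤ (A * u ^ 12) * ((u ^ 32)⁻¹ * I) := by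
      intro i _
      rw [abs_mul]
      exact mul_le_mul (hc i) ((hχ i).2 φ μ hφ hμ0 hμ) (abs_nonneg _) (by positivity)
    refine (Finset.sum_le_sum h1).trans ?_
    rw [Finset.sum_const, Finset.card_univ, Fintype.card_fin, nsmul_eq_mul]
    have h2 : (k : ℝ) * (A * u ^ 12 * ((u ^ 32)⁻¹ * I)) ≤ (A * u ^ 4) * (A * u ^ 12 * ((u ^ 32)⁻¹ * I)) :=
      mul_le_mul_of_nonneg_right hk (by positivity)
    refine h2.trans (le_of_eq ?_)
    ring
  rw [e1]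
  refine (abs_add_le _ _).trans ((add_le_add b1 b2).trans ?_)
  rw [← add_mul]
  exact mul_le_mul_of_nonneg_right (EFB_num hA hu) hI0

private theorem EFB_core2 {Γ : Subgroup SL(2, ℝ)} (hΓ : SurfaceGroup Γ) {F : Set ℍ}
    (hF : NiceDom Γ F) {A u : ℝ} (hA : 1 ≤ A) (hu : 2 * A ^ 2 ≤ u) {N : ℕ}
    {R : Γ →* (EuclideanSpace ℂ (Fin N) ≃ₗᵢ[ℂ] EuclideanSpace ℂ (Fin N))} (hP : EFB_P Γ F A u N R)
    (φ : ℍ → EuclideanSpace ℂ (Fin N)) (μ : ℝ) (hφ : IsEigensection R μ φ) (hμ0 : 0 ≤ μ)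
    (hμ : μ ≤ Real.exp (u ^ 32)) (h : ℍ → ℝ) (hinv : ∀ (γ : Γ) (z : ℍ), h (γ • z) = h z)
    (hlip : ∀ z w : ℍ, |h z - h w| ≤ dist z w) :
    |(∫ z in F, h z * ‖φ z‖ ^ 2) - (∫ z in F, h z) / (volume F).toReal * ∫ z in F, ‖φ z‖ ^ 2| ≤
      u⁻¹ * ∫ z in F, ‖φ z‖ ^ 2 := by
  obtain ⟨-, -, hpos, hfin, -, -⟩ := A_DOB Γ F hΓ hF
  haveI : IsFiniteMeasure (volume.restrict F : Measure ℍ) := ⟨by
    rw [Measure.restrict_apply_univ]; exact hfin⟩
  have hv : 0 < (volume F).toReal := ENNReal.toReal_pos hpos.ne' hfin.ne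
  set m : ℝ := (∫ z in F, h z) / (volume F).toReal with hm
  have hcont : Continuous h := by
    have h1 : LipschitzWith 1 h := LipschitzWith.of_dist_le_mul fun z w => by
      rw [Real.dist_eq, NNReal.coe_one, one_mul]
      exact hlip z w
    exact h1.continuous
  have hI : Inv Γ h := ⟨hcont, hinv⟩
  have hi := EFB_int hΓ hF hI
  have hconst : (∫ _z in F, m) = ∫ z in F, h z := by
    rw [integral_const, smul_eq_mul, measureReal_restrict_apply_univ, measureReal_def, hm]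
    field_simp
  have hmi : IntegrableOn (fun _ : ℍ => m) F volume := integrable_const m
  have hL : Lip1 Γ F (fun z => h z - m) := by
    refine ⟨fun γ z => by rw [hinv γ z], fun z w => ?_, ?_⟩
    · have e : h z - m - (h w - m) = h z - h w := by ring
      rw [e]
      exact hlip z w
    · rw [integral_sub hi hmi, hconst, sub_self]
  have k1 := EFB_core hΓ hF hA hu hP φ μ hφ hμ0 hμ _ hL
  have isq := EFB_inv_sq hφ
  have j1 := EFB_int hΓ hF isq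
  have j2 := EFB_int hΓ hF (EFB_inv_mul hI isq)
  have j3 : IntegrableOn (fun z => m * ‖φ z‖ ^ 2) F volume := j1.const_mul m
  have e1 : (∫ z in F, (h z - m) * ‖φ z‖ ^ 2) =
      (∫ z in F, h z * ‖φ z‖ ^ 2) - m * ∫ z in F, ‖φ z‖ ^ 2 := by
    rw [← integral_const_mul, ← integral_sub j2 j3]
    refine integral_congr_ae (Filter.Eventually.of_forall fun z => ?_)
    simp only
    ring
  rw [e1] at k1
  exact k1

theorem EFB (hEBF : EBF_stmt) (hEDN : EDN_stmt) (hEPB : EPB_stmt) : EFB_stmt := by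
  obtain ⟨c, s₁, hs₁, hP0⟩ := hEPB
  refine ⟨s₁ / 32, by positivity, fun Γ hΓ g hg hne => ?_⟩
  obtain ⟨e⟩ := hne
  obtain ⟨θ, hP1⟩ := hP0 Γ g e hg hΓ
  obtain ⟨F, hF⟩ := A_DOM Γ hΓ
  obtain ⟨A, hA, hB⟩ := hEBF Γ F hΓ hF
  obtain ⟨N₀, hN₀⟩ := hP1 F hF
  set s : ℝ := s₁ / 32 with hs
  have hs0 : 0 < s := by positivity
  -- the numbers `u = N^s`
  have hu32 : ∀ N : ℕ, ((N : ℝ) ^ s) ^ 32 = (N : ℝ) ^ s₁ := by
    intro N
    rw [← Real.rpow_natCast, ← Real.rpow_mul (Nat.cast_nonneg N)]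
    congr 1
    rw [hs]
    push_cast
    ring
  have htend : Tendsto (fun N : ℕ => (N : ℝ) ^ s) atTop atTop :=
    (tendsto_rpow_atTop hs0).comp tendsto_natCast_atTop_atTop
  obtain ⟨n1, hn1⟩ := Filter.eventually_atTop.1 (htend.eventually_ge_atTop (2 * A ^ 2))
  set n₀ : ℕ := max N₀ n1 with hn₀
  have hex : ∀ N : ℕ, n₀ ≤ N → ∃ x : GI N → ℝ, EFB_P Γ F A ((N : ℝ) ^ s) N ((UR c x).comp (θ N)) := by
    intro N hN
    have hu : 2 * A ^ 2 ≤ (N : ℝ) ^ s := hn1 N ((le_max_right _ _).trans hN)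
    set u : ℝ := (N : ℝ) ^ s with hudef
    have hu2 : 2 ≤ u := by nlinarith
    have hu0 : 0 < u := by linarith
    have hu1 : 1 ≤ u := by linarith
    have hρ1 : (u ^ 2)⁻¹ ≤ 1 := inv_le_one_of_one_le₀ (one_le_pow₀ hu1)
    obtain ⟨k, χ, hk, hχ, hap⟩ := hB ((u ^ 2)⁻¹) (by positivity) hρ1
    have hk' : (k : ℝ) ≤ A * u ^ 4 := by
      refine hk.trans (le_of_eq ?_)
      field_simp
    have h1 : ∀ i, ∃ B : Set (GI N → ℝ),
        (gau (GI N)).real B ≤ Real.exp (-(u ^ 32)) ∧ ∀ x : GI N → ℝ, x ∉ B →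
          Good Γ F (χ i) ((N : ℝ) ^ (-s₁)) s₁ N ((UR c x).comp (θ N)) := by
      intro i
      obtain ⟨B, b1, b2⟩ := hN₀ N ((le_max_left _ _).trans hN) (χ i) (hχ i)
      rw [← hu32 N] at b1
      exact ⟨B, b1, b2⟩
    have h2 : ∀ i, ∃ B : Set (GI N → ℝ),
        (gau (GI N)).real B ≤ Real.exp (-(u ^ 32)) ∧ ∀ x : GI N → ℝ, x ∉ B →
          Good Γ F (fun z => -χ i z) ((N : ℝ) ^ (-s₁)) s₁ N ((UR c x).comp (θ N)) := by
      intro i
      obtain ⟨B, b1, b2⟩ := hN₀ N ((le_max_left _ _).trans hN) _ (hχ i).neg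
      rw [← hu32 N] at b1
      exact ⟨B, b1, b2⟩
    choose B1 b1 g1 using h1
    choose B2 b2 g2 using h2
    haveI := EFB_prob (GI N)
    have hU : (gau (GI N)).real (⋃ i, (B1 i ∪ B2 i)) < 1 := by
      refine lt_of_le_of_lt (measureReal_iUnion_fintype_le _) ?_
      have h3 : ∀ i ∈ Finset.univ, (gau (GI N)).real (B1 i ∪ B2 i) ≤ 2 * Real.exp (-(u ^ 32)) := by
        intro i _
        refine (measureReal_union_le _ _).trans ?_
        have := add_le_add (b1 i) (b2 i)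
        linarith
      refine lt_of_le_of_lt (Finset.sum_le_sum h3) ?_
      rw [Finset.sum_const, Finset.card_univ, Fintype.card_fin, nsmul_eq_mul]
      have h4 : (k : ℝ) * (2 * Real.exp (-(u ^ 32))) ≤ A * u ^ 4 * (2 * Real.exp (-(u ^ 32))) :=
        mul_le_mul_of_nonneg_right hk' (by positivity)
      refine lt_of_le_of_lt h4 ?_
      have h5 : A * u ^ 4 * 2 < Real.exp (u ^ 32) := by
        have h6 := Real.add_one_le_exp (u ^ 32)
        have h7 : u ^ 4 * u ≤ u ^ 32 := by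
          have : u ^ 4 * u = u ^ 5 := by ring
          rw [this]
          exact pow_le_pow_right₀ hu1 (by norm_num)
        have h8 : A * u ^ 4 * 2 ≤ u ^ 4 * u := by
          have h9 : A * 2 ≤ u := by nlinarith
          have h10 : 0 ≤ u ^ 4 := by positivity
          nlinarith
        linarith
      have h11 : A * u ^ 4 * (2 * Real.exp (-(u ^ 32))) = A * u ^ 4 * 2 / Real.exp (u ^ 32) := by
        rw [Real.exp_neg]
        ring
      rw [h11, div_lt_one (Real.exp_pos _)]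
      exact h5
    have hne : (⋃ i, (B1 i ∪ B2 i)) ≠ univ := by
      intro hc
      rw [hc] at hU
      simp at hU
    obtain ⟨x, hx⟩ := (Set.ne_univ_iff_exists_notMem _).1 hne
    refine ⟨x, k, χ, hk', ?_, fun i => ⟨hχ i, ?_⟩⟩
    · intro h hh
      obtain ⟨cc, hc1, hc2⟩ := hap h hh
      refine ⟨cc, fun i => (hc1 i).trans (le_of_eq ?_), fun z => (hc2 z).trans (le_of_eq ?_)⟩
      · field_simp
      · field_simp
    · intro φ μ hφ hμ0 hμ
      have hx1 : x ∉ B1 i := fun hc => hx (Set.mem_iUnion.2 ⟨i, Or.inl hc⟩)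
      have hx2 : x ∉ B2 i := fun hc => hx (Set.mem_iUnion.2 ⟨i, Or.inr hc⟩)
      have hμ' : μ ≤ Real.exp ((N : ℝ) ^ s₁) := by
        rw [← hu32 N]
        exact hμ
      have k1 := g1 i x hx1 φ μ hφ hμ0 hμ'
      have k2 := g2 i x hx2 φ μ hφ hμ0 hμ'
      have hN1 : (N : ℝ) ^ (-s₁) = (u ^ 32)⁻¹ := by
        rw [Real.rpow_neg (Nat.cast_nonneg N), ← hu32 N]
      rw [hN1] at k1 k2
      have e2 : (∫ z in F, -χ i z * ‖φ z‖ ^ 2) = -∫ z in F, χ i z * ‖φ z‖ ^ 2 := by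
        rw [← integral_neg]
        refine integral_congr_ae (Filter.Eventually.of_forall fun z => ?_)
        simp only
        ring
      rw [e2] at k2
      rw [abs_le]
      constructor
      · linarith
      · exact k1
  have hex2 : ∀ N : ℕ, ∃ x : GI N → ℝ, n₀ ≤ N → EFB_P Γ F A ((N : ℝ) ^ s) N ((UR c x).comp (θ N)) := by
    intro N
    by_cases hN : n₀ ≤ N
    · obtain ⟨x, hx⟩ := hex N hN
      exact ⟨x, fun _ => hx⟩
    · exact ⟨fun _ => 0, fun h => absurd h hN⟩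
  choose x hx using hex2
  obtain ⟨-, -, hpos, hfin, hdom, -⟩ := A_DOB Γ F hΓ hF
  haveI : IsFiniteMeasure (volume.restrict F : Measure ℍ) := ⟨by
    rw [Measure.restrict_apply_univ]; exact hfin⟩
  have hv : 0 < (volume F).toReal := ENNReal.toReal_pos hpos.ne' hfin.ne
  -- the estimate on `F`
  have main : ∀ n : ℕ, n₀ ≤ n → ∀ (μ : ℝ) (φ : ℍ → EuclideanSpace ℂ (Fin n)), 0 ≤ μ →
      μ ≤ Real.exp ((n : ℝ) ^ s) → IsEigensection ((UR c (x n)).comp (θ n)) μ φ → ∀ h : ℍ → ℝ,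
        (∀ (γ : Γ) (z : ℍ), h (γ • z) = h z) → (∀ z w : ℍ, |h z - h w| ≤ dist z w) →
        |(∫ z in F, h z * ‖φ z‖ ^ 2) - (∫ z in F, h z) / (volume F).toReal * ∫ z in F, ‖φ z‖ ^ 2| ≤
          ((n : ℝ) ^ s)⁻¹ * ∫ z in F, ‖φ z‖ ^ 2 := by
    intro n hn μ φ hμ0 hμ hφ h hinv hlip
    have hu : 2 * A ^ 2 ≤ (n : ℝ) ^ s := hn1 n ((le_max_right _ _).trans hn)
    have hu1 : 1 ≤ (n : ℝ) ^ s := by nlinarith
    refine EFB_core2 hΓ hF hA hu (hx n hn) φ μ hφ hμ0 (hμ.trans ?_) h hinv hlip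
    rw [Real.exp_le_exp]
    exact le_self_pow₀ hu1 (by norm_num)
  refine ⟨fun N => (UR c (x N)).comp (θ N), ⟨n₀, ?_⟩, ?_⟩
  · intro n hn μ φ hμ0 hμ hφ h hinv hlip F' hF'
    obtain ⟨hvF, hint⟩ := hdom F' hF'
    have hcont : Continuous h := by
      have h1 : LipschitzWith 1 h := LipschitzWith.of_dist_le_mul fun z w => by
        rw [Real.dist_eq, NNReal.coe_one, one_mul]
        exact hlip z w
      exact h1.continuous
    have hI : Inv Γ h := ⟨hcont, hinv⟩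
    have isq := EFB_inv_sq hφ
    rw [hint (fun z => h z * ‖φ z‖ ^ 2) (EFB_inv_mul hI isq).2, hint (fun z => ‖φ z‖ ^ 2) isq.2,
      hint h hinv, hvF, Real.rpow_neg (Nat.cast_nonneg n)]
    exact main n hn μ φ hμ0 hμ hφ h hinv hlip
  · intro h hh ε hε
    have hI : Inv Γ h := hh
    obtain ⟨L, h', hL, hI', hlip', happ⟩ := hEDN Γ F h hΓ hF hI (ε / 4) (by positivity)
    have hL0 : 0 < L := by linarith
    have hev : ∀ᶠ n : ℕ in atTop, 4 * L / ε ≤ (n : ℝ) ^ s := htend.eventually_ge_atTop _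
    refine (hev.and (Filter.eventually_ge_atTop n₀)).mono ?_
    rintro n ⟨hn2, hn⟩ μ φ hμ0 hμ hφ F' hF'
    obtain ⟨hvF, hint⟩ := hdom F' hF'
    have isq := EFB_inv_sq hφ
    rw [hint (fun z => h z * ‖φ z‖ ^ 2) (EFB_inv_mul hI isq).2, hint (fun z => ‖φ z‖ ^ 2) isq.2,
      hint h hI.2, hvF]
    have key := main n hn μ φ hμ0 hμ hφ (fun z => h' z / L) (fun γ z => by simp only [hI'.2 γ z])
      (fun z w => by
        rw [← sub_div, abs_div, abs_of_pos hL0, div_le_iff₀ hL0, mul_comm]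
        exact hlip' z w)
    have j0 := EFB_int hΓ hF hI
    have j0' := EFB_int hΓ hF hI'
    have j1 := EFB_int hΓ hF isq
    have j2 := EFB_int hΓ hF (EFB_inv_mul hI isq)
    have j3 := EFB_int hΓ hF (EFB_inv_mul hI' isq)
    set I : ℝ := ∫ z in F, ‖φ z‖ ^ 2 with hIdef
    have hI0 : 0 ≤ I := integral_nonneg fun z => by positivity
    have e3 : (∫ z in F, h' z / L * ‖φ z‖ ^ 2) = L⁻¹ * ∫ z in F, h' z * ‖φ z‖ ^ 2 := by
      rw [← integral_const_mul]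
      refine integral_congr_ae (Filter.Eventually.of_forall fun z => ?_)
      simp only
      ring
    have e4 : (∫ z in F, h' z / L) = L⁻¹ * ∫ z in F, h' z := by
      rw [← integral_const_mul]
      refine integral_congr_ae (Filter.Eventually.of_forall fun z => ?_)
      simp only
      ring
    rw [e3, e4] at key
    have key2 : |(∫ z in F, h' z * ‖φ z‖ ^ 2) - (∫ z in F, h' z) / (volume F).toReal * I| ≤ ε / 4 * I := by
      have h6 : (∫ z in F, h' z * ‖φ z‖ ^ 2) - (∫ z in F, h' z) / (volume F).toReal * I =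
          L * (L⁻¹ * (∫ z in F, h' z * ‖φ z‖ ^ 2) - L⁻¹ * (∫ z in F, h' z) / (volume F).toReal * I) := by
        field_simp
      rw [h6, abs_mul, abs_of_pos hL0]
      have h7 : L * ((n : ℝ) ^ s)⁻¹ ≤ ε / 4 := by
        have h8 : 0 < (n : ℝ) ^ s := lt_of_lt_of_le (by positivity) hn2
        rw [← div_eq_mul_inv, div_le_iff₀ h8]
        rw [div_le_iff₀ hε] at hn2
        nlinarith
      calc L * |L⁻¹ * (∫ z in F, h' z * ‖φ z‖ ^ 2) - L⁻¹ * (∫ z in F, h' z) / (volume F).toReal * I|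
          ≤ L * (((n : ℝ) ^ s)⁻¹ * I) := mul_le_mul_of_nonneg_left key hL0.le
        _ = L * ((n : ℝ) ^ s)⁻¹ * I := by ring
        _ ≤ ε / 4 * I := mul_le_mul_of_nonneg_right h7 hI0
    -- the two differences
    have d1 : |(∫ z in F, h z * ‖φ z‖ ^ 2) - ∫ z in F, h' z * ‖φ z‖ ^ 2| ≤ ε / 4 * I := by
      rw [← integral_sub j2 j3]
      refine (abs_integral_le_integral_abs).trans ?_
      rw [hIdef, ← integral_const_mul]
      refine integral_mono ((j2.sub j3).abs) (j1.const_mul _) fun z => ?_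
      show |h z * ‖φ z‖ ^ 2 - h' z * ‖φ z‖ ^ 2| ≤ ε / 4 * ‖φ z‖ ^ 2
      rw [← sub_mul, abs_mul, abs_of_nonneg (show (0 : ℝ) ≤ ‖φ z‖ ^ 2 by positivity)]
      exact mul_le_mul_of_nonneg_right (happ z) (by positivity)
    have d2 : |(∫ z in F, h z) / (volume F).toReal - (∫ z in F, h' z) / (volume F).toReal| ≤
        ε / 4 := by
      rw [← sub_div, abs_div, abs_of_pos hv, div_le_iff₀ hv, ← integral_sub j0 j0']
      refine (abs_integral_le_integral_abs).trans ?_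
      have : (∫ _z in F, ε / 4) = ε / 4 * (volume F).toReal := by
        rw [integral_const, smul_eq_mul, measureReal_restrict_apply_univ, measureReal_def, mul_comm]
      rw [← this]
      exact integral_mono ((j0.sub j0').abs) (integrable_const _) fun z => happ z
    have d3 : |((∫ z in F, h z) / (volume F).toReal - (∫ z in F, h' z) / (volume F).toReal) * I| ≤
        ε / 4 * I := by
      rw [abs_mul, abs_of_nonneg hI0]
      exact mul_le_mul_of_nonneg_right d2 hI0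
    rw [sub_mul] at d3
    rw [abs_le] at d1 d3 key2 ⊢
    constructor <;> nlinarith [d1.1, d1.2, d3.1, d3.2, key2.1, key2.2, mul_nonneg hε.le hI0]

end Pool.Agent.QX
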